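import Pool.Agent.Helper25.RA.Frame

/-!
A fast kernel check of a finite table `(F, A)` in the sense of `Frame.lean`. Sets of types are
bit masks.
-/

namespace Pool.Agent.Helper25.RA

/-- loop over a list with index -/
def allIdx {α : Type} : List α → Nat → (Nat → α → Bool) → Bool
  | [], _, _ => true
  | a :: l, i, p => p i a && allIdx l (i + 1) p

theorem allIdx_spec {α : Type} (d : α) : ∀ (l : List α) (i : Nat) (p : Nat → α → Bool),
    allIdx l i p = true → ∀ j, j < l.length → p (i + j) (l.getD j d) = true
  | [], _, _ => fun _ j hj => absurd hj (Nat.not_lt_zero _)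
  | a :: l, i, p => by
    intro h j hj
    simp only [allIdx, Bool.and_eq_true] at h
    cases j with
    | zero => simpa using h.1
    | succ j =>
      have := allIdx_spec d l (i + 1) p h.2 j (by simpa using hj)
      simpa [Nat.add_assoc, Nat.add_comm 1 j] using this

/-- one type: its number, `sm t` = the types `s` (younger) which may see it by `t`, `bm c` = the
types joined to it by `c` in any order of age, `fm f` = the older types it sees by default `f`. -/
structure Row where
  idx : Nat
  sm : List Nat
  bm : List Nat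
  fm : List Nat

instance : Inhabited Row := ⟨⟨0, [], [], []⟩⟩

/-- entry of a list -/
def gt (l : List Nat) (t : Nat) : Nat := l.getD t 0

/-- the default colour -/
def fget (l : List Nat) (q : Nat) : Nat :=
  match l with
  | [a, b, c, d, e, _] =>
    cond (a.testBit q) 0 (cond (b.testBit q) 1 (cond (c.testBit q) 2
      (cond (d.testBit q) 3 (cond (e.testBit q) 4 5))))
  | _ => 0

theorem fget_lt (l : List Nat) (q : Nat) : fget l q < 6 := by
  unfold fget
  split
  · rename_i a b c d e f
    cases a.testBit q <;> cases b.testBit q <;> cases c.testBit q <;> cases d.testBit q <;>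
      cases e.testBit q <;> decide
  · decide

/-- the partners `(f, c)` of `t` in forbidden triangles -/
def badL (t : Nat) : List (Nat × Nat) :=
  match t with
  | 0 => [(0, 2), (2, 0), (4, 4)]
  | 1 => [(1, 3), (3, 1), (5, 5)]
  | 2 => [(2, 4), (4, 2), (0, 0)]
  | 3 => [(3, 5), (5, 3), (1, 1)]
  | 4 => [(4, 0), (0, 4), (2, 2)]
  | 5 => [(5, 1), (1, 5), (3, 3)]
  | _ => []

theorem mem_badL : ∀ t f c : Fin 6, Bad t f c → (f.1, c.1) ∈ badL t.1 := by decide

theorem bad_of_mem : ∀ t f c : Fin 6, (f.1, c.1) ∈ badL t.1 → Bad t f c := by decide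

/-- numbers below 6 -/
def six : List Nat := [0, 1, 2, 3, 4, 5]

theorem mem_six : ∀ t : Fin 6, t.1 ∈ six := by decide

/-- default colour of `s` towards `q` is allowed, and the default masks are right -/
def chk1 (s q : Row) : Bool :=
  (gt q.sm (fget s.fm q.idx)).testBit s.idx && (gt s.fm (fget s.fm q.idx)).testBit q.idx

/-- `bm` contains all colours -/
def chk2 (r q : Row) : Bool :=
  six.all fun c => (cond ((gt q.sm c).testBit r.idx) ((gt r.bm c).testBit q.idx) true) &&
    (cond ((gt r.sm c).testBit q.idx) ((gt r.bm c).testBit q.idx) true)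

/-- no forbidden triangle `s r q` with default colour at `s q` -/
def chk3 (s r : Row) : Bool :=
  six.all fun t => cond ((gt r.sm t).testBit s.idx)
    ((badL t).all fun p => Nat.beq (Nat.land (gt s.fm p.1) (gt r.bm p.2)) 0) true

/-- every request at `r r'` is served -/
def chk4 (r r' : Row) : Bool :=
  allIdx r.sm 0 fun t m => allIdx r'.sm 0 fun u m' =>
    cond (Nat.beq (Nat.land m m') 0)
      (six.all fun k => cond ((gt r.bm k).testBit r'.idx) ((badL k).contains (t, u)) true) true

/-- the masks are below `2 ^ n` and there are six of them -/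
def chk0 (n : Nat) (r : Row) : Bool :=
  Nat.beq r.sm.length 6 && r.sm.all fun m => Nat.ble (m + 1) (2 ^ n)

/-- the whole check; requests only for rows in `D'` -/
def chk (D : List Row) (D' : List Row) : Bool :=
  (allIdx D 0 fun i r => Nat.beq i r.idx) &&
  (D.all fun r => chk0 D.length r) &&
  (D.all fun r => D.all fun q => chk1 r q && chk2 r q && chk3 r q) &&
  (D'.all fun r => D'.all fun q => chk4 r q)

variable (D : List Row)

/-- row of a type -/
def row (i : Fin D.length) : Row := D.getD i.1 default

/-- default colour -/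
def tF (s r : Fin D.length) : Fin 6 := ⟨fget (row D s).fm r.1, fget_lt _ _⟩

/-- allowed colours -/
def tA (s r : Fin D.length) (t : Fin 6) : Prop := (gt (row D r).sm t.1).testBit s.1 = true

theorem row_mem (i : Fin D.length) : row D i ∈ D := by
  unfold row
  rw [List.getD_eq_getElem _ _ i.2]
  exact List.getElem_mem i.2

variable {D}

theorem row_idx (h : chk D D = true) (i : Fin D.length) : (row D i).idx = i.1 := by
  simp only [chk, Bool.and_eq_true] at h
  have := allIdx_spec default D 0 _ h.1.1.1 i.1 i.2
  have h2 := Nat.eq_of_beq_eq_true this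
  rw [Nat.zero_add] at h2
  exact h2.symm

theorem chk123 (h : chk D D = true) (s r : Fin D.length) :
    chk1 (row D s) (row D r) = true ∧ chk2 (row D s) (row D r) = true ∧
      chk3 (row D s) (row D r) = true := by
  simp only [chk, Bool.and_eq_true, List.all_eq_true] at h
  have := h.1.2 _ (row_mem D s) _ (row_mem D r)
  exact ⟨this.1.1, this.1.2, this.2⟩

theorem chk4' (h : chk D D = true) (s r : Fin D.length) :
    chk4 (row D s) (row D r) = true := by
  simp only [chk, Bool.and_eq_true, List.all_eq_true] at h
  exact h.2 _ (row_mem D s) _ (row_mem D r)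

theorem chk0' (h : chk D D = true) (r : Fin D.length) : (row D r).sm.length = 6 ∧
    ∀ m ∈ (row D r).sm, m < 2 ^ D.length := by
  simp only [chk, Bool.and_eq_true, List.all_eq_true] at h
  have := h.1.1.2 _ (row_mem D r)
  simp only [chk0, Bool.and_eq_true, List.all_eq_true] at this
  exact ⟨Nat.eq_of_beq_eq_true this.1, fun m hm => Nat.le_of_ble_eq_true (this.2 m hm)⟩

theorem cond_true_of {a b : Bool} (h : cond a b true = true) (ha : a = true) : b = true := by
  subst ha; exact h

/-- `bm` contains all colours. -/
theorem bm_of (h : chk D D = true) {r q : Fin D.length} {c : Fin 6} (hc : tA D r q c ∨ tA D q r c) :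
    (gt (row D r).bm c.1).testBit q.1 = true := by
  have h2 := (chk123 h r q).2.1
  simp only [chk2, List.all_eq_true, Bool.and_eq_true] at h2
  have h3 := h2 c.1 (mem_six c)
  rw [row_idx h, row_idx h] at h3
  rcases hc with hc | hc
  · exact cond_true_of h3.1 hc
  · exact cond_true_of h3.2 hc

theorem tFA (h : chk D D = true) (s r : Fin D.length) : tA D s r (tF D s r) := by
  have h2 := (chk123 h s r).1
  simp only [chk1, Bool.and_eq_true] at h2
  rw [row_idx h, row_idx h] at h2
  exact h2.1

theorem tb (h : chk D D = true) (s r q : Fin D.length) (t c : Fin 6) (ht : tA D s r t)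
    (hc : tA D r q c ∨ tA D q r c) : ¬ Bad t (tF D s q) c := by
  intro hbad
  have h1 := (chk123 h s q).1
  simp only [chk1, Bool.and_eq_true] at h1
  rw [row_idx h, row_idx h] at h1
  have h3 := (chk123 h s r).2.2
  simp only [chk3, List.all_eq_true] at h3
  have h4 := h3 t.1 (mem_six t)
  rw [row_idx h] at h4
  have h5 := cond_true_of h4 ht
  rw [List.all_eq_true] at h5
  have h6 := h5 _ (mem_badL t _ c hbad)
  have h7 := Nat.eq_of_beq_eq_true h6
  have h8 : ((gt (row D s).fm (tF D s q).1) &&& (gt (row D r).bm c.1)).testBit q.1 = true := by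
    rw [Nat.testBit_and, Bool.and_eq_true]
    exact ⟨h1.2, bm_of h hc⟩
  have h9 : ((gt (row D s).fm (tF D s q).1) &&& (gt (row D r).bm c.1)) = 0 := h7
  rw [h9] at h8
  simp at h8

theorem gt_mem {l : List Nat} (hl : l.length = 6) (t : Fin 6) : gt l t.1 ∈ l := by
  unfold gt
  rw [List.getD_eq_getElem _ _ (by omega : t.1 < l.length)]
  exact List.getElem_mem _

theorem tcov (h : chk D D = true) (r r' : Fin D.length) (k t u : Fin 6)
    (hk : tA D r r' k ∨ tA D r' r k) (hbad : ¬ Bad k t u) :
    ∃ s, tA D s r t ∧ tA D s r' u := by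
  have h4 := chk4' h r r'
  unfold chk4 at h4
  have hl := chk0' h r
  have hl' := chk0' h r'
  have h5 := allIdx_spec 0 _ _ _ h4 t.1 (by omega)
  have h6 := allIdx_spec 0 _ _ _ h5 u.1 (by omega)
  simp only [Nat.zero_add] at h6
  by_cases h0 : Nat.land ((row D r).sm.getD t.1 0) ((row D r').sm.getD u.1 0) = 0
  · exfalso
    rw [h0] at h6
    have h7 := cond_true_of h6 rfl
    rw [List.all_eq_true] at h7
    have h8 := h7 k.1 (mem_six k)
    rw [row_idx h] at h8
    have h9 := cond_true_of h8 (bm_of h hk)
    exact hbad (bad_of_mem _ _ _ (by simpa using h9))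
  · obtain ⟨s, hs⟩ := Nat.exists_testBit_of_ne_zero h0
    have hs' : (gt (row D r).sm t.1 &&& gt (row D r').sm u.1).testBit s = true := hs
    rw [Nat.testBit_and, Bool.and_eq_true] at hs'
    have hlt : s < D.length := by
      by_contra hge
      have h10 : (gt (row D r).sm t.1).testBit s = false := by
        apply Nat.testBit_lt_two_pow
        exact lt_of_lt_of_le (hl.2 _ (gt_mem hl.1 t)) (Nat.pow_le_pow_right (by decide) (by omega))
      rw [h10] at hs'
      exact absurd hs'.1 (by decide)
    exact ⟨⟨s, hlt⟩, hs'.1, hs'.2⟩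

/-- A table which passes the check gives an edge colouring of the complete graph on `ℕ`. -/
theorem of_chk (h : chk D D = true) (hD : 0 < D.length) :
    ∃ c : ℕ → ℕ → Fin 6, (∀ x y, x ≠ y → c x y = c y x) ∧
      (∀ x y z, x ≠ y → y ≠ z → x ≠ z → ¬ Bad (c x y) (c y z) (c x z)) ∧
      (∀ x y, x ≠ y → ∀ t u, ¬ Bad (c x y) t u → ∃ w, w ≠ x ∧ w ≠ y ∧ c x w = t ∧ c w y = u) := by
  haveI : Nonempty (Fin D.length) := ⟨⟨0, hD⟩⟩
  exact frame (F := tF D) (A := tA D) (tFA h) (tb h) (tcov h)

end Pool.Agent.Helper25.RA
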