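import Mathlib

/-!
List colouring with three values of a graph on `{0, .., n-1}` in which every vertex has at most one
older neighbour: an edge `u v` forbids that the two values sum to a given value.
-/

namespace Pool.Agent.Helper25.RA

/-- two forbidden values leave a third one. -/
theorem exists_avoid2 (p q : Fin 3) : ∃ r : Fin 3, r ≠ p ∧ r ≠ q := by
  revert p q; decide

theorem sum_ne {r s k : Fin 3} (h : r ≠ k - s) : r + s ≠ k := by
  revert r s k; decide

theorem exists_avoid_sum (P : Fin 3 → Prop) (hP : ∀ a b, P a → P b → a = b) (s k : Fin 3) :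
    ∃ r : Fin 3, ¬ P r ∧ r + s ≠ k := by
  classical
  by_cases h : ∃ a, P a
  · obtain ⟨a, ha⟩ := h
    obtain ⟨r, h1, h2⟩ := exists_avoid2 a (k - s)
    exact ⟨r, fun hr => h1 (hP _ _ hr ha), sum_ne h2⟩
  · push Not at h
    obtain ⟨r, _, h2⟩ := exists_avoid2 (k - s) (k - s)
    exact ⟨r, h r, sum_ne h2⟩

theorem exists_avoid (P : Fin 3 → Prop) (hP : ∀ a b, P a → P b → a = b) :
    ∃ r : Fin 3, ¬ P r := by
  obtain ⟨r, h, _⟩ := exists_avoid_sum P hP 0 0
  exact ⟨r, h⟩

section forest

variable (E : ℕ → ℕ → Prop) (k : ℕ → ℕ → Fin 3) (B : ℕ → Fin 3 → Prop)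

/-- the colouring is fine below `n`. -/
def Fine (n : ℕ) (a : ℕ → Fin 3) : Prop :=
  (∀ v, v < n → ¬ B v (a v)) ∧ ∀ u v, u < v → v < n → E u v → a u + a v ≠ k u v

variable {E k B}

/-- one prescribed vertex, lists of size at least two. -/
theorem forest_one (hB : ∀ v a b, B v a → B v b → a = b)
    (hE : ∀ v u u', u < v → u' < v → E u v → E u' v → u = u') (n : ℕ) :
    ∀ (y : ℕ) (q : Fin 3), ¬ B y q → ∃ a : ℕ → Fin 3, a y = q ∧ Fine E k B n a := by
  classical
  induction n with
  | zero =>
    intro y q _
    exact ⟨fun _ => q, rfl, fun v hv => absurd hv (by omega), fun u v _ hv => absurd hv (by omega)⟩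
  | succ n ih =>
    intro y q hq
    by_cases hyn : y = n
    · subst hyn
      by_cases hu : ∃ u, u < y ∧ E u y
      · obtain ⟨u, hun, huE⟩ := hu
        obtain ⟨r, hr1, hr2⟩ := exists_avoid_sum (B u) (hB u) q (k u y)
        obtain ⟨a, ha, hf⟩ := ih u r hr1
        refine ⟨fun z => if z = y then q else a z, by simp, ?_, ?_⟩
        · intro v hv
          by_cases hvy : v = y
          · subst hvy; simpa using hq
          · simp only [if_neg hvy]
            exact hf.1 v (by omega)
        · intro u' v hu'v hv huv
          by_cases hvy : v = y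
          · subst hvy
            have : u' = u := hE v u' u hu'v hun huv huE
            subst this
            simp only [if_neg (Nat.ne_of_lt hu'v), if_true]
            rw [ha]
            exact hr2
          · simp only [if_neg hvy, if_neg (show u' ≠ y by omega)]
            exact hf.2 u' v hu'v (by omega) huv
      · push Not at hu
        obtain ⟨r, hr⟩ := exists_avoid (B (y + 1)) (hB _)
        obtain ⟨a, ha, hf⟩ := ih (y + 1) r hr
        refine ⟨fun z => if z = y then q else a z, by simp, ?_, ?_⟩
        · intro v hv
          by_cases hvy : v = y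
          · subst hvy; simpa using hq
          · simp only [if_neg hvy]
            exact hf.1 v (by omega)
        · intro u' v hu'v hv huv
          by_cases hvy : v = y
          · subst hvy
            exact absurd huv (hu u' hu'v)
          · simp only [if_neg hvy, if_neg (show u' ≠ y by omega)]
            exact hf.2 u' v hu'v (by omega) huv
    · obtain ⟨a, ha, hf⟩ := ih y q hq
      by_cases hu : ∃ u, u < n ∧ E u n
      · obtain ⟨u, hun, huE⟩ := hu
        obtain ⟨r, hr1, hr2⟩ := exists_avoid_sum (B n) (hB n) (a u) (k u n)
        refine ⟨fun z => if z = n then r else a z, by simp [hyn, ha], ?_, ?_⟩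
        · intro v hv
          by_cases hvy : v = n
          · subst hvy; simpa using hr1
          · simp only [if_neg hvy]
            exact hf.1 v (by omega)
        · intro u' v hu'v hv huv
          by_cases hvy : v = n
          · subst hvy
            have : u' = u := hE v u' u hu'v hun huv huE
            subst this
            simp only [if_neg (Nat.ne_of_lt hu'v), if_true]
            rw [add_comm]
            exact hr2
          · simp only [if_neg hvy, if_neg (show u' ≠ n by omega)]
            exact hf.2 u' v hu'v (by omega) huv
      · push Not at hu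
        obtain ⟨r, hr⟩ := exists_avoid (B n) (hB _)
        refine ⟨fun z => if z = n then r else a z, by simp [hyn, ha], ?_, ?_⟩
        · intro v hv
          by_cases hvy : v = n
          · subst hvy; simpa using hr
          · simp only [if_neg hvy]
            exact hf.1 v (by omega)
        · intro u' v hu'v hv huv
          by_cases hvy : v = n
          · subst hvy
            exact absurd huv (hu u' hu'v)
          · simp only [if_neg hvy, if_neg (show u' ≠ n by omega)]
            exact hf.2 u' v hu'v (by omega) huv

/-- two prescribed vertices, full lists. -/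
theorem forest_two (hE : ∀ v u u', u < v → u' < v → E u v → E u' v → u = u')
    (hEs : ∀ u v, E u v → E v u) (hks : ∀ u v, k u v = k v u) (n : ℕ) :
    ∀ (x y : ℕ) (p q : Fin 3), x ≠ y → (E x y → p + q ≠ k x y) →
      ∃ a : ℕ → Fin 3, a x = p ∧ a y = q ∧ Fine E k (fun _ _ => False) n a := by
  classical
  induction n with
  | zero =>
    intro x y p q hxy _
    exact ⟨fun z => if z = x then p else q, by simp, by simp [hxy.symm],
      fun v hv => absurd hv (by omega), fun u v _ hv => absurd hv (by omega)⟩
  | succ n ih =>
    -- a helper: `y = n` is prescribed and `x` is another prescribed vertex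
    have key : ∀ (x : ℕ) (p q : Fin 3), x ≠ n → (E x n → p + q ≠ k x n) →
        ∃ a : ℕ → Fin 3, a x = p ∧ a n = q ∧ Fine E k (fun _ _ => False) (n + 1) a := by
      intro x p q hxn hpq
      have ext : ∀ a : ℕ → Fin 3, a x = p → Fine E k (fun _ _ => False) n a →
          (∀ u, u < n → E u n → a u + q ≠ k u n) →
          ∃ a : ℕ → Fin 3, a x = p ∧ a n = q ∧ Fine E k (fun _ _ => False) (n + 1) a := by
        intro a ha hf hq
        refine ⟨fun z => if z = n then q else a z, by simp [hxn, ha], by simp, fun v _ h => h, ?_⟩
        intro u v huv hv hEuv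
        by_cases hvn : v = n
        · subst hvn
          simp only [if_neg (Nat.ne_of_lt huv), if_true]
          exact hq u huv hEuv
        · simp only [if_neg hvn, if_neg (show u ≠ n by omega)]
          exact hf.2 u v huv (by omega) hEuv
      by_cases hu : ∃ u, u < n ∧ E u n ∧ u ≠ x
      · obtain ⟨u, hun, huE, hux⟩ := hu
        obtain ⟨r, hr1, hr2⟩ := exists_avoid2 (k x u - p) (k u n - q)
        obtain ⟨a, ha, hau, hf⟩ := ih x u p r (Ne.symm hux)
          (fun _ => by rw [add_comm]; exact sum_ne hr1)
        exact ext a ha hf (fun u' hu' hE' => by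
          have := hE n u' u hu' hun hE' huE
          subst this
          rw [hau]
          exact sum_ne hr2)
      · push Not at hu
        obtain ⟨a, ha, hf⟩ := forest_one (E := E) (k := k) (B := fun _ _ => False)
          (fun _ _ _ h => h.elim) hE n x p (fun h => h)
        exact ext a ha hf (fun u' hu' hE' => by
          have := hu u' hu' hE'
          subst this
          rw [ha]
          exact hpq hE')
    intro x y p q hxy hpq
    by_cases hyn : y = n
    · subst hyn
      exact key x p q hxy hpq
    by_cases hxn : x = n
    · subst hxn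
      obtain ⟨a, h1, h2, h3⟩ := key y q p (Ne.symm hxy)
        (fun h => by rw [add_comm, hks]; exact hpq (hEs _ _ h))
      exact ⟨a, h2, h1, h3⟩
    obtain ⟨a, hax, hay, hf⟩ := ih x y p q hxy hpq
    by_cases hu : ∃ u, u < n ∧ E u n
    · obtain ⟨u, hun, huE⟩ := hu
      obtain ⟨r, hr1, _⟩ := exists_avoid2 (k u n - a u) (k u n - a u)
      refine ⟨fun z => if z = n then r else a z, by simp [hxn, hax], by simp [hyn, hay],
        fun v _ h => h, ?_⟩
      intro u' v huv hv hEuv
      by_cases hvn : v = n
      · subst hvn
        have := hE v u' u huv hun hEuv huE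
        subst this
        simp only [if_neg (Nat.ne_of_lt huv), if_true]
        rw [add_comm]
        exact sum_ne hr1
      · simp only [if_neg hvn, if_neg (show u' ≠ n by omega)]
        exact hf.2 u' v huv (by omega) hEuv
    · push Not at hu
      refine ⟨a, hax, hay, fun v _ h => h, ?_⟩
      intro u' v huv hv hEuv
      by_cases hvn : v = n
      · subst hvn
        exact absurd hEuv (hu u' huv)
      · exact hf.2 u' v huv (by omega) hEuv

end forest

end Pool.Agent.Helper25.RA
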