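import Mathlib

namespace Pool.Agent.Helper25.RA

/-- `a, b, c` in some order are `i, i, i + 2`. -/
def Bad (a b c : Fin 6) : Prop :=
  (a = b ∧ c = a + 2) ∨ (a = c ∧ b = a + 2) ∨ (b = c ∧ a = b + 2)

instance (a b c : Fin 6) : Decidable (Bad a b c) := by unfold Bad; infer_instance

theorem Bad.swap23 {a b c : Fin 6} : Bad a b c → Bad a c b := by
  revert a b c; decide

theorem Bad.swap12 {a b c : Fin 6} : Bad a b c → Bad b a c := by
  revert a b c; decide

theorem Bad.rot {a b c : Fin 6} : Bad a b c → Bad b c a := by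
  revert a b c; decide

/-- for all `a b` there is `c` with no forbidden cycle. -/
theorem exists_good (a b : Fin 6) : ∃ c, ¬ Bad a b c := by
  revert a b; decide

section frame

variable {T : Type} [Nonempty T] (F : T → T → Fin 6) (A : T → T → Fin 6 → Prop)

/-- a server type for the demand -/
noncomputable def pick (r r' : T) (t u : Fin 6) : T := by
  classical
  exact if h : ∃ s, A s r t ∧ A s r' u then h.choose else Classical.arbitrary T

theorem pick_spec {r r' : T} {t u : Fin 6} (h : ∃ s, A s r t ∧ A s r' u) :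
    A (pick A r r' t u) r t ∧ A (pick A r r' t u) r' u := by
  classical
  unfold pick
  rw [dif_pos h]
  exact h.choose_spec

/-- demands -/
def dem (n : ℕ) : ℕ × ℕ × Fin 6 × Fin 6 :=
  (Encodable.decode (α := ℕ × ℕ × Fin 6 × Fin 6) n.unpair.1).getD (0, 0, 0, 0)

theorem dem_surj (d : ℕ × ℕ × Fin 6 × Fin 6) (m : ℕ) : ∃ n, m ≤ n ∧ dem n = d := by
  refine ⟨Nat.pair (Encodable.encode d) m, Nat.right_le_pair _ _, ?_⟩
  simp [dem]

/-- the demand `(x, y; t, u)` can be served at step `n`. -/
def Valid (n x y : ℕ) (t u : Fin 6) (S : (ℕ → T) × (ℕ → ℕ → Fin 6)) : Prop :=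
  x < n ∧ y < n ∧ x ≠ y ∧ ¬ Bad (S.2 x y) t u

/-- type of the new vertex -/
noncomputable def newT (n x y : ℕ) (t u : Fin 6) (S : (ℕ → T) × (ℕ → ℕ → Fin 6)) : T := by
  classical
  exact if Valid n x y t u S then pick A (S.1 x) (S.1 y) t u else Classical.arbitrary T

/-- colours at the new vertex -/
noncomputable def newC (n x y : ℕ) (t u : Fin 6) (S : (ℕ → T) × (ℕ → ℕ → Fin 6)) (z : ℕ) :
    Fin 6 := by
  classical
  exact if Valid n x y t u S ∧ z = x then t else
    if Valid n x y t u S ∧ z = y then u else F (newT A n x y t u S) (S.1 z)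

/-- add the vertex `n` -/
def addV (n : ℕ) (s : T) (f : ℕ → Fin 6) (S : (ℕ → T) × (ℕ → ℕ → Fin 6)) :
    (ℕ → T) × (ℕ → ℕ → Fin 6) :=
  (Function.update S.1 n s, fun a b => if a = n then f b else if b = n then f a else S.2 a b)

/-- one step: state = types and colours; the new vertex is `n`. -/
noncomputable def step (n : ℕ) (S : (ℕ → T) × (ℕ → ℕ → Fin 6)) :
    (ℕ → T) × (ℕ → ℕ → Fin 6) :=
  addV n (newT A n (dem n).1 (dem n).2.1 (dem n).2.2.1 (dem n).2.2.2 S)
    (newC F A n (dem n).1 (dem n).2.1 (dem n).2.2.1 (dem n).2.2.2 S) S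

/-- state before the vertex `n` is added -/
noncomputable def st : ℕ → (ℕ → T) × (ℕ → ℕ → Fin 6)
  | 0 => (fun _ => Classical.arbitrary T, fun _ _ => 0)
  | n + 1 => step F A n (st n)

/-- the invariant for the vertices below `n` -/
structure Inv (n : ℕ) (S : (ℕ → T) × (ℕ → ℕ → Fin 6)) : Prop where
  symm : ∀ a b, a < n → b < n → a ≠ b → S.2 a b = S.2 b a
  mem : ∀ a b, a < b → b < n → A (S.1 b) (S.1 a) (S.2 b a)
  tri : ∀ a b c, a < n → b < n → c < n → a ≠ b → b ≠ c → a ≠ c →
    ¬ Bad (S.2 a b) (S.2 b c) (S.2 a c)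

variable {F A}

theorem newT_spec
    (hcov : ∀ r r' k t u, (A r r' k ∨ A r' r k) → ¬ Bad k t u → ∃ s, A s r t ∧ A s r' u)
    {n x y : ℕ} {t u : Fin 6} {S : (ℕ → T) × (ℕ → ℕ → Fin 6)} (h : Inv A n S)
    (hv : Valid n x y t u S) :
    A (newT A n x y t u S) (S.1 x) t ∧ A (newT A n x y t u S) (S.1 y) u := by
  classical
  have h0 : newT A n x y t u S = pick A (S.1 x) (S.1 y) t u := by
    unfold newT; rw [if_pos hv]
  rw [h0]
  obtain ⟨h1, h2, h3, h4⟩ := hv
  refine pick_spec A (hcov _ _ _ _ _ ?_ h4)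
  rcases lt_or_gt_of_ne h3 with h5 | h5
  · right
    rw [h.symm x y h1 h2 h3]
    exact h.mem x y h5 h2
  · left
    exact h.mem y x h5 h1

theorem newC_x {n x y : ℕ} {t u : Fin 6} {S : (ℕ → T) × (ℕ → ℕ → Fin 6)}
    (hv : Valid n x y t u S) : newC F A n x y t u S x = t := by
  classical
  unfold newC; rw [if_pos ⟨hv, rfl⟩]

theorem newC_y {n x y : ℕ} {t u : Fin 6} {S : (ℕ → T) × (ℕ → ℕ → Fin 6)}
    (hv : Valid n x y t u S) : newC F A n x y t u S y = u := by
  classical
  have h3 : x ≠ y := hv.2.2.1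
  unfold newC
  rw [if_neg (by rintro ⟨-, h⟩; exact h3 h.symm), if_pos ⟨hv, rfl⟩]

theorem newC_other {n x y z : ℕ} {t u : Fin 6} {S : (ℕ → T) × (ℕ → ℕ → Fin 6)}
    (hv : ¬ (Valid n x y t u S ∧ (z = x ∨ z = y))) :
    newC F A n x y t u S z = F (newT A n x y t u S) (S.1 z) := by
  classical
  unfold newC
  rw [if_neg (fun h => hv ⟨h.1, Or.inl h.2⟩), if_neg (fun h => hv ⟨h.1, Or.inr h.2⟩)]

theorem newC_mem (hFA : ∀ s r, A s r (F s r))
    (hcov : ∀ r r' k t u, (A r r' k ∨ A r' r k) → ¬ Bad k t u → ∃ s, A s r t ∧ A s r' u)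
    {n x y : ℕ} {t u : Fin 6} {S : (ℕ → T) × (ℕ → ℕ → Fin 6)} (h : Inv A n S) (z : ℕ) :
    A (newT A n x y t u S) (S.1 z) (newC F A n x y t u S z) := by
  by_cases h1 : Valid n x y t u S ∧ (z = x ∨ z = y)
  · rcases h1.2 with e | e
    · rw [e, newC_x h1.1]; exact (newT_spec hcov h h1.1).1
    · rw [e, newC_y h1.1]; exact (newT_spec hcov h h1.1).2
  · rw [newC_other h1]; exact hFA _ _

theorem Inv.memOr {n : ℕ} {S : (ℕ → T) × (ℕ → ℕ → Fin 6)} (h : Inv A n S) {a b : ℕ}
    (ha : a < n) (hb' : b < n) (hab : a ≠ b) :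
    A (S.1 a) (S.1 b) (S.2 a b) ∨ A (S.1 b) (S.1 a) (S.2 a b) := by
  rcases lt_or_gt_of_ne hab with h1 | h1
  · right
    rw [h.symm a b ha hb' hab]
    exact h.mem a b h1 hb'
  · left
    exact h.mem b a h1 ha

theorem newC_tri (hFA : ∀ s r, A s r (F s r))
    (hb : ∀ s r q t c, A s r t → (A r q c ∨ A q r c) → ¬ Bad t (F s q) c)
    (hcov : ∀ r r' k t u, (A r r' k ∨ A r' r k) → ¬ Bad k t u → ∃ s, A s r t ∧ A s r' u)
    {n x y : ℕ} {t u : Fin 6} {S : (ℕ → T) × (ℕ → ℕ → Fin 6)} (h : Inv A n S)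
    (a b : ℕ) (ha : a < n) (hb' : b < n) (hab : a ≠ b) :
    ¬ Bad (newC F A n x y t u S a) (newC F A n x y t u S b) (S.2 a b) := by
  have hsym := h.symm a b ha hb' hab
  by_cases hva : Valid n x y t u S ∧ (a = x ∨ a = y)
  · by_cases hvb : Valid n x y t u S ∧ (b = x ∨ b = y)
    · have hval := hva.1
      obtain ⟨h1, h2, h3, h4⟩ := hval
      rcases hva.2 with ea | ea <;> rcases hvb.2 with eb | eb
      · exact absurd (ea.trans eb.symm) hab
      · rw [ea, eb, newC_x hva.1, newC_y hva.1]
        intro hB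
        exact h4 hB.rot.rot
      · rw [hsym, ea, eb, newC_x hva.1, newC_y hva.1]
        intro hB
        exact h4 hB.rot.rot.swap23
      · exact absurd (ea.trans eb.symm) hab
    · rw [newC_other hvb]
      exact hb _ (S.1 a) (S.1 b) _ _ (newC_mem hFA hcov h a) (h.memOr ha hb' hab)
  · rw [newC_other hva]
    intro hB
    refine hb _ (S.1 b) (S.1 a) _ (S.2 a b) (newC_mem hFA hcov h b) ?_ hB.swap12
    exact (h.memOr ha hb' hab).symm

theorem addV_inv {n : ℕ} {S : (ℕ → T) × (ℕ → ℕ → Fin 6)} (h : Inv A n S) (s : T)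
    (f : ℕ → Fin 6) (hfA : ∀ z, A s (S.1 z) (f z))
    (hft : ∀ a b, a < n → b < n → a ≠ b → ¬ Bad (f a) (f b) (S.2 a b)) :
    Inv A (n + 1) (addV n s f S) := by
  obtain ⟨hs, hm, ht⟩ := h
  refine ⟨?_, ?_, ?_⟩
  · intro a b ha hb' hab
    simp only [addV]
    by_cases h1 : a = n
    · have h2 : b ≠ n := fun h => hab (h1.trans h.symm)
      rw [if_pos h1, if_neg h2, if_pos h1]
    · by_cases h2 : b = n
      · rw [if_neg h1, if_pos h2, if_pos h2]
      · rw [if_neg h1, if_neg h2, if_neg h2, if_neg h1]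
        exact hs a b (by omega) (by omega) hab
  · intro a b hab hbn
    simp only [addV]
    by_cases h2 : b = n
    · subst h2
      have h1 : a ≠ b := by omega
      rw [if_pos rfl, Function.update_self, Function.update_of_ne h1]
      exact hfA a
    · have h1 : a ≠ n := by omega
      rw [if_neg h2, if_neg h1, Function.update_of_ne h1, Function.update_of_ne h2]
      exact hm a b hab (by omega)
  · intro a b c ha hb' hc hab hbc hac
    simp only [addV]
    by_cases h1 : a = n
    · have h2 : b ≠ n := fun h => hab (h1.trans h.symm)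
      have h3 : c ≠ n := fun h => hac (h1.trans h.symm)
      rw [if_pos h1, if_neg h2, if_neg h3, if_pos h1]
      intro hB
      exact hft b c (by omega) (by omega) hbc hB.swap23
    · by_cases h2 : b = n
      · have h3 : c ≠ n := fun h => hbc (h2.trans h.symm)
        rw [if_neg h1, if_pos h2, if_pos h2, if_neg h1, if_neg h3]
        exact hft a c (by omega) (by omega) hac
      · by_cases h3 : c = n
        · rw [if_neg h1, if_neg h2, if_neg h2, if_pos h3, if_neg h1, if_pos h3]
          intro hB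
          exact hft a b (by omega) (by omega) hab hB.rot.swap12
        · rw [if_neg h1, if_neg h2, if_neg h2, if_neg h3, if_neg h1, if_neg h3]
          exact ht a b c (by omega) (by omega) (by omega) hab hbc hac

theorem st_inv (hFA : ∀ s r, A s r (F s r))
    (hb : ∀ s r q t c, A s r t → (A r q c ∨ A q r c) → ¬ Bad t (F s q) c)
    (hcov : ∀ r r' k t u, (A r r' k ∨ A r' r k) → ¬ Bad k t u → ∃ s, A s r t ∧ A s r' u)
    (n : ℕ) : Inv A n (st F A n) := by
  induction n with
  | zero => exact ⟨by intro a b h; omega, by intro a b _ h; omega, by intro a b c h; omega⟩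
  | succ n ih => exact addV_inv ih _ _ (newC_mem hFA hcov ih) (newC_tri hFA hb hcov ih)

/-- colours of old vertices do not change -/
theorem st_mono (a b n : ℕ) (ha : a < n) (hb : b < n) (m : ℕ) :
    (st F A (n + m)).2 a b = (st F A n).2 a b := by
  induction m with
  | zero => rfl
  | succ m ih =>
    rw [← ih]
    show (if a = n + m then _ else if b = n + m then _ else (st F A (n + m)).2 a b) = _
    rw [if_neg (by omega), if_neg (by omega)]

theorem st_mono' (a b n n' : ℕ) (ha : a < n) (hb : b < n) (h : n ≤ n') :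
    (st F A n').2 a b = (st F A n).2 a b := by
  obtain ⟨m, rfl⟩ := Nat.exists_eq_add_of_le h
  exact st_mono a b n ha hb m

variable (F A)

/-- the final colouring -/
noncomputable def col (a b : ℕ) : Fin 6 := (st F A (max a b + 1)).2 a b

variable {F A}

theorem col_eq (a b n : ℕ) (ha : a < n) (hb : b < n) : col F A a b = (st F A n).2 a b := by
  unfold col
  exact (st_mono' a b _ _ (by omega) (by omega) (by omega)).symm

/-- the frame: a table gives a representation on the natural numbers. -/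
theorem frame (hFA : ∀ s r, A s r (F s r))
    (hb : ∀ s r q t c, A s r t → (A r q c ∨ A q r c) → ¬ Bad t (F s q) c)
    (hcov : ∀ r r' k t u, (A r r' k ∨ A r' r k) → ¬ Bad k t u → ∃ s, A s r t ∧ A s r' u) :
    ∃ c : ℕ → ℕ → Fin 6, (∀ x y, x ≠ y → c x y = c y x) ∧
      (∀ x y z, x ≠ y → y ≠ z → x ≠ z → ¬ Bad (c x y) (c y z) (c x z)) ∧
      (∀ x y, x ≠ y → ∀ t u, ¬ Bad (c x y) t u → ∃ w, w ≠ x ∧ w ≠ y ∧ c x w = t ∧ c w y = u) := by
  classical
  refine ⟨col F A, ?_, ?_, ?_⟩
  · intro x y hxy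
    rw [col_eq x y (x + y + 1) (by omega) (by omega), col_eq y x (x + y + 1) (by omega) (by omega)]
    exact (st_inv hFA hb hcov _).symm x y (by omega) (by omega) hxy
  · intro x y z h1 h2 h3
    rw [col_eq x y (x + y + z + 1) (by omega) (by omega),
      col_eq y z (x + y + z + 1) (by omega) (by omega),
      col_eq x z (x + y + z + 1) (by omega) (by omega)]
    exact (st_inv hFA hb hcov _).tri x y z (by omega) (by omega) (by omega) h1 h2 h3
  · intro x y hxy t u htu
    obtain ⟨n, hn, hd⟩ := dem_surj (x, y, t, u) (x + y + 1)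
    have hx : x < n := by omega
    have hy : y < n := by omega
    have hcxy : col F A x y = (st F A n).2 x y := col_eq x y n hx hy
    have hval : Valid n x y t u (st F A n) :=
      ⟨hx, hy, hxy, by rw [← hcxy]; exact htu⟩
    have hst : st F A (n + 1) = addV n (newT A n x y t u (st F A n))
        (newC F A n x y t u (st F A n)) (st F A n) := by
      show step F A n (st F A n) = _
      unfold step
      rw [hd]
    refine ⟨n, by omega, by omega, ?_, ?_⟩
    · rw [col_eq x n (n + 1) (by omega) (by omega), hst]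
      simp only [addV]
      rw [if_neg (by omega), if_pos trivial]
      exact newC_x hval
    · rw [col_eq n y (n + 1) (by omega) (by omega), hst]
      simp only [addV]
      rw [if_pos trivial]
      exact newC_y hval

end frame

end Pool.Agent.Helper25.RA
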