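import Pool.Agent.Helper25.RA.Check
import Pool.Agent.RA6.Defs99

/-!
From the colouring on `ℕ` to a representation of the relation algebra.
-/

namespace Pool.Agent.Helper25.RA

open Pool.Agent.RA6

theorem forb_iff_bad (s t u : ZMod 6) : Forbidden s t u ↔ Bad s t u := forb_iff s t u

/-- the three properties are the colouring in the sense of `Pool.Agent.RA6`. -/
theorem isColouring_of {c : ℕ → ℕ → Fin 6} (h : (∀ x y, x ≠ y → c x y = c y x) ∧
      (∀ x y z, x ≠ y → y ≠ z → x ≠ z → ¬ Bad (c x y) (c y z) (c x z)) ∧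
      (∀ x y, x ≠ y → ∀ t u, ¬ Bad (c x y) t u → ∃ w, w ≠ x ∧ w ≠ y ∧ c x w = t ∧ c w y = u)) :
    IsColouring (U := ℕ) (c : ℕ → ℕ → ZMod 6) where
  nontriv := ⟨0, 1, by decide⟩
  symm := h.1
  no_forb := fun x y z h1 h2 h3 hf => h.2.1 x y z h1 h2 h3 ((forb_iff_bad _ _ _).mp hf)
  witness := fun x y hxy s t hf => h.2.2 x y hxy s t (fun hb => hf ((forb_iff_bad _ _ _).mpr hb))

/-- A table which passes the check gives a representation on `ℕ`. -/
theorem rep_of_chk {D : List Row} (h : chk D D = true) (hD : 0 < D.length) :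
    ∃ r : Set Atom → Set (ℕ × ℕ), IsRepresentation ℕ r := by
  obtain ⟨c, hc⟩ := of_chk h hD
  exact rep_of_colouring (isColouring_of hc)

/-- A frame (any nonempty set of types) gives a representation on `ℕ`. -/
theorem rep_of_frame {T : Type} [Nonempty T] {F : T → T → Fin 6} {A : T → T → Fin 6 → Prop}
    (hFA : ∀ s r, A s r (F s r))
    (hb : ∀ s r q t c, A s r t → (A r q c ∨ A q r c) → ¬ Bad t (F s q) c)
    (hcov : ∀ r r' k t u, (A r r' k ∨ A r' r k) → ¬ Bad k t u → ∃ s, A s r t ∧ A s r' u) :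
    ∃ r : Set Atom → Set (ℕ × ℕ), IsRepresentation ℕ r := by
  obtain ⟨c, hc⟩ := frame hFA hb hcov
  exact rep_of_colouring (isColouring_of hc)

end Pool.Agent.Helper25.RA
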