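import Pool.Agent.Helper25.RA.GFrame
import Pool.Agent.Helper25.RA.Forest3
import Pool.Agent.Helper25.RA.Rep

/-!
The free pair frame: a finite (or infinite) table of parts with default colours, some of them
free (every edge gets its own value), and exceptional colours at hosts, gives a representation.
-/

namespace Pool.Agent.Helper25.FP

open Pool.Agent.Helper25.RA

/-- letter of a colour -/
def ltr (c : Fin 6) : Bool := decide (c.val % 2 = 1)

/-- value of a colour -/
def vl (c : Fin 6) : Fin 3 := ⟨c.val / 2, by omega⟩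

/-- the colour with a given letter and value -/
def mkc : Bool → Fin 3 → Fin 6
  | true, v => ⟨2 * v.val + 1, by omega⟩
  | false, v => ⟨2 * v.val, by omega⟩

theorem ltr_mkc (l : Bool) (v : Fin 3) : ltr (mkc l v) = l := by revert l v; decide

theorem vl_mkc (l : Bool) (v : Fin 3) : vl (mkc l v) = v := by revert l v; decide

theorem bad_iff (a b c : Fin 6) :
    Bad a b c ↔ (ltr a = ltr b ∧ ltr b = ltr c ∧ vl a + vl b + vl c = 1) := by
  revert a b c; decide

/-- the tables and the local conditions, without the demands. -/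
structure Sys (T : Type) where
  /-- letter of the default colour -/
  lt : T → T → Bool
  /-- the pair is free -/
  fr : T → T → Prop
  /-- natural value -/
  nu : T → T → Fin 3
  /-- exceptional colours of a new vertex (first part) at a host (second part) -/
  ex : T → T → Fin 6 → Prop
  lt_symm : ∀ x y, lt x y = lt y x
  fr_symm : ∀ x y, fr x y → fr y x
  nu_symm : ∀ x y, nu x y = nu y x
  T1 : ∀ x y z, lt x y = lt y z → lt y z = lt x z → ¬ fr x y → ¬ fr y z → ¬ fr x z →
    nu x y + nu y z + nu x z ≠ 1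
  T2 : ∀ x y z, fr x y → ¬ (lt x z = lt x y ∧ lt y z = lt x y)
  X0 : ∀ w x c, ex w x c → ¬ (lt w x = ltr c ∧ (fr w x ∨ nu w x = vl c))
  X2 : ∀ w x c z, ex w x c → lt w z = ltr c → lt x z = ltr c →
    (fr w z ∧ fr x z) ∨ (¬ fr w z ∧ ¬ fr x z ∧ nu w z + nu x z + vl c ≠ 1)
  X3 : ∀ w v x c d, ex w x c → ex v x d → ltr c = ltr d → lt w v = ltr c → ¬ fr w v →
    vl c + vl d + nu w v ≠ 1
  X4 : ∀ w x u c d, ex w x c → ex x u d → ltr c = ltr d → lt w u = ltr c → ¬ fr w u →
    vl c + vl d + nu w u ≠ 1

namespace Sys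

variable {T : Type} (S : Sys T)

/-- the colour is a possible default colour. -/
def Def (w x : T) (c : Fin 6) : Prop := S.lt w x = ltr c ∧ (S.fr w x ∨ S.nu w x = vl c)

/-- the colour is possible at a host. -/
def Av (w x : T) (c : Fin 6) : Prop := S.Def w x c ∨ S.ex w x c

/-- no exceptional colours of letter `L` between parts free in `L` to `w`. -/
def D1 (L : Bool) (w : T) : Prop :=
  ∀ z z2 c, S.fr w z → S.lt w z = L → S.fr w z2 → S.lt w z2 = L → ltr c = L → ¬ S.ex z2 z c

/-- no part free in `L` to `w` is joined by `L` to both `x` and `y`. -/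
def D2 (L : Bool) (w x y : T) : Prop :=
  ∀ v, S.fr v w → S.lt v w = L → ¬ (S.lt v x = L ∧ S.lt v y = L)

/-- every demand has a server. -/
def Served : Prop :=
  ∀ x y e p q, (S.Def x y e ∨ S.ex x y e ∨ S.ex y x e) → ¬ Bad e p q →
    ∃ w, S.Av w x p ∧ S.Av w y q ∧
      (ltr p = ltr q → S.ex w x p → S.ex w y q → S.D1 (ltr p) w ∧ S.D2 (ltr p) w x y)

/-- the class of finite structures -/
structure Good (n : ℕ) (τ : ℕ → T) (c : ℕ → ℕ → Fin 6) : Prop where
  symm : ∀ i j, i < n → j < n → i ≠ j → c i j = c j i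
  tri : ∀ i j k, i < n → j < n → k < n → i ≠ j → j ≠ k → i ≠ k → ¬ Bad (c i j) (c j k) (c i k)
  pair : ∀ i j, i < j → j < n → S.Av (τ j) (τ i) (c i j)
  two : ∀ i i' j, i < j → i' < j → j < n → i ≠ i' → S.ex (τ j) (τ i) (c i j) →
    S.ex (τ j) (τ i') (c i' j) → ltr (c i j) = ltr (c i' j) →
    S.D2 (ltr (c i j)) (τ j) (τ i) (τ i')

/-- the colour of the edge, read from the older to the younger vertex -/
def cc (c : ℕ → ℕ → Fin 6) (u v : ℕ) : Fin 6 := c (min u v) (max u v)

theorem cc_comm (c : ℕ → ℕ → Fin 6) (u v : ℕ) : cc c u v = cc c v u := by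
  unfold cc; rw [min_comm, max_comm]

theorem cc_lt (c : ℕ → ℕ → Fin 6) {u v : ℕ} (h : u < v) : cc c u v = c u v := by
  unfold cc; rw [min_eq_left h.le, max_eq_right h.le]

variable {S}

theorem Good.cc_eq {n : ℕ} {τ : ℕ → T} {c : ℕ → ℕ → Fin 6} (hG : S.Good n τ c) {u v : ℕ}
    (hu : u < n) (hv : v < n) (h : u ≠ v) : cc c u v = c u v := by
  rcases lt_or_gt_of_ne h with h' | h'
  · exact cc_lt c h'
  · rw [cc_comm, cc_lt c h']
    exact hG.symm _ _ hv hu h'.ne

variable (S)

/-- the vertices which get a free value of letter `L` -/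
def F (n : ℕ) (τ : ℕ → T) (W : T) (x y : ℕ) (p q : Fin 6) (L : Bool) (z : ℕ) : Prop :=
  z < n ∧ S.fr W (τ z) ∧ S.lt W (τ z) = L ∧ (z = x → ltr p = L) ∧ (z = y → ltr q = L)

/-- exceptional edge of letter `L` -/
def exE (τ : ℕ → T) (c : ℕ → ℕ → Fin 6) (L : Bool) (u v : ℕ) : Prop :=
  u ≠ v ∧ ltr (cc c u v) = L ∧ S.ex (τ (max u v)) (τ (min u v)) (cc c u v)

theorem exE_symm {τ : ℕ → T} {c : ℕ → ℕ → Fin 6} {L : Bool} {u v : ℕ} (h : S.exE τ c L u v) :
    S.exE τ c L v u := by
  refine ⟨h.1.symm, by rw [cc_comm]; exact h.2.1, ?_⟩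
  rw [cc_comm, max_comm, min_comm]
  exact h.2.2

variable {S}

/-- the values of letter `L` of a new vertex. -/
theorem colour {n : ℕ} {τ : ℕ → T} {c : ℕ → ℕ → Fin 6} (hG : S.Good n τ c) (W : T) (x y : ℕ)
    (p q : Fin 6) (hxy : x ≠ y) (hb : x < n → y < n → ¬ Bad p q (c x y))
    (hD : x < n → y < n → ltr p = ltr q → S.ex W (τ x) p → S.ex W (τ y) q →
      S.D1 (ltr p) W ∧ S.D2 (ltr p) W (τ x) (τ y)) (L : Bool) :
    ∃ a : ℕ → Fin 3, (S.F n τ W x y p q L x → a x = vl p) ∧
      (S.F n τ W x y p q L y → a y = vl q) ∧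
      (∀ u v, u < v → v < n → S.F n τ W x y p q L u → S.F n τ W x y p q L v →
        S.exE τ c L u v → a u + a v + vl (c u v) ≠ 1) ∧
      (x < n → S.ex W (τ x) p → ltr p = L → ∀ v, S.F n τ W x y p q L v → v ≠ x →
        ltr (cc c x v) = L → a v + vl p + vl (cc c x v) ≠ 1) ∧
      (y < n → S.ex W (τ y) q → ltr q = L → ∀ v, S.F n τ W x y p q L v → v ≠ y →
        ltr (cc c y v) = L → a v + vl q + vl (cc c y v) ≠ 1) := by
  classical
  have hE : ∀ v u u', u < v → u' < v →
      (S.F n τ W x y p q L u ∧ S.F n τ W x y p q L v ∧ S.exE τ c L u v) →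
      (S.F n τ W x y p q L u' ∧ S.F n τ W x y p q L v ∧ S.exE τ c L u' v) → u = u' := by
    rintro v u u' huv hu'v ⟨hFu, hFv, h1⟩ ⟨hFu', _, h2⟩
    by_contra hne
    obtain ⟨_, h12, h13⟩ := h1
    obtain ⟨_, h22, h23⟩ := h2
    rw [cc_lt c huv] at h12 h13
    rw [cc_lt c hu'v] at h22 h23
    rw [max_eq_right huv.le, min_eq_left huv.le] at h13
    rw [max_eq_right hu'v.le, min_eq_left hu'v.le] at h23
    have := hG.two u u' v huv hu'v hFv.1 hne h13 h23 (by rw [h12, h22])
    rw [h12] at this
    exact this W hFv.2.1 hFv.2.2.1 ⟨hFu.2.2.1, hFu'.2.2.1⟩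
  have hEs : ∀ u v, (S.F n τ W x y p q L u ∧ S.F n τ W x y p q L v ∧ S.exE τ c L u v) →
      (S.F n τ W x y p q L v ∧ S.F n τ W x y p q L u ∧ S.exE τ c L v u) :=
    fun u v h => ⟨h.2.1, h.1, S.exE_symm h.2.2⟩
  have ar : ∀ {a b d : Fin 3}, a + b ≠ 1 - d → a + b + d ≠ 1 := by decide
  have ar2 : ∀ {a b d : Fin 3}, a + b = 1 - d → a + b + d = 1 := by decide
  have nbad : x < n → y < n → ltr p = L → ltr q = L → ltr (cc c x y) = L →
      vl p + vl q + vl (cc c x y) ≠ 1 := by
    intro hx hy hp hq hc hs
    rw [hG.cc_eq hx hy hxy] at hc hs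
    exact hb hx hy ((bad_iff _ _ _).mpr ⟨by rw [hp, hq], by rw [hq, hc], hs⟩)
  have nFx : S.ex W (τ x) p → ltr p = L → ¬ S.F n τ W x y p q L x := by
    rintro he hl ⟨_, h1, h2, _⟩
    exact S.X0 _ _ _ he ⟨by rw [h2, hl], Or.inl h1⟩
  have nFy : S.ex W (τ y) q → ltr q = L → ¬ S.F n τ W x y p q L y := by
    rintro he hl ⟨_, h1, h2, _⟩
    exact S.X0 _ _ _ he ⟨by rw [h2, hl], Or.inl h1⟩
  by_cases hX : x < n ∧ S.ex W (τ x) p ∧ ltr p = L
  · obtain ⟨hxn, hXe, hXl⟩ := hX
    by_cases hY : y < n ∧ S.ex W (τ y) q ∧ ltr q = L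
    · -- both exceptional
      obtain ⟨hyn, hYe, hYl⟩ := hY
      have hd := (hD hxn hyn (by rw [hXl, hYl]) hXe hYe).1
      rw [hXl] at hd
      have hch : ∀ v : ℕ, ∃ r : Fin 3, r ≠ 1 - vl p - vl (cc c x v) ∧ r ≠ 1 - vl q - vl (cc c y v) :=
        fun v => exists_avoid2 _ _
      choose a ha using hch
      have ar3 : ∀ {a b d : Fin 3}, a ≠ 1 - b - d → a + b + d ≠ 1 := by decide
      refine ⟨a, fun h => absurd h (nFx hXe hXl), fun h => absurd h (nFy hYe hYl), ?_, ?_, ?_⟩
      · rintro u v huv hv hFu hFv ⟨_, h2, h3⟩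
        rw [max_eq_right huv.le, min_eq_left huv.le] at h3
        exact absurd h3 (hd _ _ _ hFu.2.1 hFu.2.2.1 hFv.2.1 hFv.2.2.1 h2)
      · intro _ _ _ v _ _ _
        exact ar3 (ha v).1
      · intro _ _ _ v _ _ _
        exact ar3 (ha v).2
    · -- only `x`
      obtain ⟨a, ha, hf⟩ := forest_one
        (E := fun u v => S.F n τ W x y p q L u ∧ S.F n τ W x y p q L v ∧ S.exE τ c L u v)
        (k := fun u v => 1 - vl (cc c u v))
        (B := fun v r => S.F n τ W x y p q L v ∧ v ≠ x ∧ ltr (cc c x v) = L ∧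
          r + vl p + vl (cc c x v) = 1)
        (by
          rintro v r s ⟨_, _, _, h1⟩ ⟨_, _, _, h2⟩
          have : ∀ {a b d e : Fin 3}, a + d + e = 1 → b + d + e = 1 → a = b := by decide
          exact this h1 h2) hE n y (vl q)
        (by
          rintro ⟨hF, _, h3, h4⟩
          have hq := hF.2.2.2.2 rfl
          have hy := hF.1
          refine nbad hxn hy hXl hq h3 ?_
          rw [add_comm (vl p)]
          exact h4)
      refine ⟨a, fun h => absurd h (nFx hXe hXl), fun _ => ha, ?_, ?_, ?_⟩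
      · intro u v huv hv hFu hFv hEuv
        have := hf.2 u v huv hv ⟨hFu, hFv, hEuv⟩
        simp only [cc_lt c huv] at this
        exact ar this
      · intro _ _ _ v hFv hvx hl hs
        exact hf.1 v hFv.1 ⟨hFv, hvx, hl, hs⟩
      · intro h1 h2 h3
        exact absurd ⟨h1, h2, h3⟩ hY
  · by_cases hY : y < n ∧ S.ex W (τ y) q ∧ ltr q = L
    · obtain ⟨hyn, hYe, hYl⟩ := hY
      obtain ⟨a, ha, hf⟩ := forest_one
        (E := fun u v => S.F n τ W x y p q L u ∧ S.F n τ W x y p q L v ∧ S.exE τ c L u v)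
        (k := fun u v => 1 - vl (cc c u v))
        (B := fun v r => S.F n τ W x y p q L v ∧ v ≠ y ∧ ltr (cc c y v) = L ∧
          r + vl q + vl (cc c y v) = 1)
        (by
          rintro v r s ⟨_, _, _, h1⟩ ⟨_, _, _, h2⟩
          have : ∀ {a b d e : Fin 3}, a + d + e = 1 → b + d + e = 1 → a = b := by decide
          exact this h1 h2) hE n x (vl p)
        (by
          rintro ⟨hF, _, h3, h4⟩
          have hp := hF.2.2.2.1 rfl
          have hx := hF.1
          rw [cc_comm] at h3 h4
          exact nbad hx hyn hp hYl h3 h4)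
      refine ⟨a, fun _ => ha, fun h => absurd h (nFy hYe hYl), ?_, ?_, ?_⟩
      · intro u v huv hv hFu hFv hEuv
        have := hf.2 u v huv hv ⟨hFu, hFv, hEuv⟩
        simp only [cc_lt c huv] at this
        exact ar this
      · intro h1 h2 h3
        exact absurd ⟨h1, h2, h3⟩ hX
      · intro _ _ _ v hFv hvx hl hs
        exact hf.1 v hFv.1 ⟨hFv, hvx, hl, hs⟩
    · obtain ⟨a, hax, hay, hf⟩ := forest_two
        (E := fun u v => S.F n τ W x y p q L u ∧ S.F n τ W x y p q L v ∧ S.exE τ c L u v)
        (k := fun u v => 1 - vl (cc c u v)) hE hEs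
        (fun u v => by rw [cc_comm]) n x y (vl p) (vl q) hxy
        (by
          rintro ⟨hFx, hFy, _, h2, _⟩ hs
          exact nbad hFx.1 hFy.1 (hFx.2.2.2.1 rfl) (hFy.2.2.2.2 rfl) h2 (ar2 hs))
      refine ⟨a, fun _ => hax, fun _ => hay, ?_, ?_, ?_⟩
      · intro u v huv hv hFu hFv hEuv
        have := hf.2 u v huv hv ⟨hFu, hFv, hEuv⟩
        simp only [cc_lt c huv] at this
        exact ar this
      · intro h1 h2 h3
        exact absurd ⟨h1, h2, h3⟩ hX
      · intro h1 h2 h3
        exact absurd ⟨h1, h2, h3⟩ hY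

/-- status of an old vertex: default colour, or exceptional colour at a host. -/
theorem status {n : ℕ} {τ : ℕ → T} (W : T) (x y : ℕ) (p q : Fin 6) (hxy : x ≠ y)
    (hp : x < n → S.Av W (τ x) p) (hq : y < n → S.Av W (τ y) q) (a : Bool → ℕ → Fin 3)
    (hax : ∀ L, S.F n τ W x y p q L x → a L x = vl p)
    (hay : ∀ L, S.F n τ W x y p q L y → a L y = vl q) :
    ∃ f : ℕ → Fin 6, f x = p ∧ f y = q ∧ ∀ z, z < n →
      (S.lt W (τ z) = ltr (f z) ∧
        ((S.fr W (τ z) ∧ S.F n τ W x y p q (ltr (f z)) z ∧ a (ltr (f z)) z = vl (f z)) ∨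
         (¬ S.fr W (τ z) ∧ S.nu W (τ z) = vl (f z)))) ∨
      ((z = x ∨ z = y) ∧ S.ex W (τ z) (f z)) := by
  classical
  refine ⟨fun z => if z = x then p else if z = y then q else
    if S.fr W (τ z) then mkc (S.lt W (τ z)) (a (S.lt W (τ z)) z) else
      mkc (S.lt W (τ z)) (S.nu W (τ z)), by simp, ?_, ?_⟩
  · simp only [if_neg hxy.symm, if_true]
  · intro z hz
    by_cases h1 : z = x
    · subst h1
      simp only [if_true]
      rcases hp hz with h | h
      · left
        refine ⟨h.1, ?_⟩
        by_cases hf : S.fr W (τ z)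
        · left
          have hF : S.F n τ W z y p q (ltr p) z :=
            ⟨hz, hf, h.1, fun _ => rfl, fun e => absurd e hxy⟩
          exact ⟨hf, hF, hax _ hF⟩
        · right
          exact ⟨hf, h.2.resolve_left hf⟩
      · right
        exact ⟨Or.inl trivial, h⟩
    · by_cases h2 : z = y
      · subst h2
        simp only [if_neg h1, if_true]
        rcases hq hz with h | h
        · left
          refine ⟨h.1, ?_⟩
          by_cases hf : S.fr W (τ z)
          · left
            have hF : S.F n τ W x z p q (ltr q) z :=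
              ⟨hz, hf, h.1, fun e => absurd e h1, fun _ => rfl⟩
            exact ⟨hf, hF, hay _ hF⟩
          · right
            exact ⟨hf, h.2.resolve_left hf⟩
        · right
          exact ⟨Or.inr trivial, h⟩
      · simp only [if_neg h1, if_neg h2]
        left
        by_cases hf : S.fr W (τ z)
        · simp only [if_pos hf, ltr_mkc, vl_mkc]
          refine ⟨trivial, Or.inl ⟨hf, ⟨hz, hf, rfl, fun e => absurd e h1, fun e => absurd e h2⟩,
            trivial⟩⟩
        · simp only [if_neg hf, ltr_mkc, vl_mkc]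
          exact ⟨trivial, Or.inr ⟨hf, trivial⟩⟩

/-- the one point extension. -/
theorem extend {n : ℕ} {τ : ℕ → T} {c : ℕ → ℕ → Fin 6} (hG : S.Good n τ c) (W : T) (x y : ℕ)
    (p q : Fin 6) (hxy : x ≠ y) (hp : x < n → S.Av W (τ x) p) (hq : y < n → S.Av W (τ y) q)
    (hb : x < n → y < n → ¬ Bad p q (c x y))
    (hD : x < n → y < n → ltr p = ltr q → S.ex W (τ x) p → S.ex W (τ y) q →
      S.D1 (ltr p) W ∧ S.D2 (ltr p) W (τ x) (τ y)) :
    ∃ f : ℕ → Fin 6, f x = p ∧ f y = q ∧
      S.Good (n + 1) (addV n W f (τ, c)).1 (addV n W f (τ, c)).2 := by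
  classical
  choose a ha using fun L => colour hG W x y p q hxy hb hD L
  obtain ⟨f, hfx, hfy, hst⟩ := status (S := S) (n := n) (τ := τ) W x y p q hxy hp hq a
    (fun L => (ha L).1) (fun L => (ha L).2.1)
  have s1 : ∀ {a b d : Fin 3}, a + b + d = 1 → b + d + a = 1 := by decide
  have s2 : ∀ {a b d : Fin 3}, a + b + d = 1 → b + a + d = 1 := by decide
  -- the two unary clauses
  have hun : ∀ h v, h < n → v < n → h ≠ v → (h = x ∨ h = y) → S.ex W (τ h) (f h) →
      S.F n τ W x y p q (ltr (f v)) v → a (ltr (f v)) v = vl (f v) → ltr (f h) = ltr (f v) →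
      ltr (cc c h v) = ltr (f v) → vl (f v) + vl (f h) + vl (cc c h v) ≠ 1 := by
    intro h v hh hv hhv hor hex hF hav hl hl2
    rcases hor with e | e
    · subst e
      rw [hfx] at hex hl ⊢
      have := (ha (ltr (f v))).2.2.2.1 hh hex hl v hF hhv.symm hl2
      rw [hav] at this
      exact this
    · subst e
      rw [hfy] at hex hl ⊢
      have := (ha (ltr (f v))).2.2.2.2 hh hex hl v hF hhv.symm hl2
      rw [hav] at this
      exact this
  have hT0 : ∀ u v, u < v → v < n → ¬ Bad (f u) (f v) (c u v) := by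
    intro u v huv hv hbad
    have hu : u < n := by omega
    rw [bad_iff] at hbad
    obtain ⟨hl1, hl2, hs⟩ := hbad
    have hpr := hG.pair u v huv hv
    rcases hst u hu with ⟨hu1, hu2⟩ | ⟨hu1, hu2⟩
    · rcases hst v hv with ⟨hv1, hv2⟩ | ⟨hv1, hv2⟩
      · rcases hpr with hd | he
        · -- all default
          obtain ⟨hd1, hd2⟩ := hd
          have hWu : S.lt (τ u) W = ltr (f u) := by rw [S.lt_symm]; exact hu1
          have hWv : S.lt (τ v) W = ltr (f v) := by rw [S.lt_symm]; exact hv1
          have huv1 : S.lt (τ u) (τ v) = ltr (c u v) := by rw [S.lt_symm]; exact hd1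
          by_cases f1 : S.fr (τ v) (τ u)
          · exact S.T2 _ _ W f1 ⟨by rw [hWv, hd1, hl2], by rw [hWu, hd1, hl1, hl2]⟩
          by_cases f2 : S.fr W (τ u)
          · exact S.T2 _ _ (τ v) f2 ⟨by rw [hv1, hu1, hl1], by rw [huv1, hu1, hl1, hl2]⟩
          by_cases f3 : S.fr W (τ v)
          · exact S.T2 _ _ (τ u) f3 ⟨by rw [hu1, hv1, hl1], by rw [hd1, hv1, hl2]⟩
          have g1 := hd2.resolve_left f1
          have g2 : S.nu W (τ u) = vl (f u) := by
            rcases hu2 with h | h
            · exact absurd h.1 f2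
            · exact h.2
          have g3 : S.nu W (τ v) = vl (f v) := by
            rcases hv2 with h | h
            · exact absurd h.1 f3
            · exact h.2
          have f1' : ¬ S.fr (τ u) (τ v) := fun h => f1 (S.fr_symm _ _ h)
          have := S.T1 W (τ u) (τ v) (by rw [hu1, huv1, hl1, hl2]) (by rw [huv1, hv1, hl2])
            f2 f1' f3
          rw [g2, S.nu_symm (τ u), g1, g3] at this
          have s3 : ∀ {a b d : Fin 3}, a + b + d = 1 → a + d + b = 1 := by decide
          exact this (s3 hs)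
        · rcases S.X2 _ _ _ W he (by rw [S.lt_symm, hv1, hl2])
            (by rw [S.lt_symm, hu1, hl1, hl2]) with h | h
          · have f2 : S.fr W (τ u) := S.fr_symm _ _ h.2
            have f3 : S.fr W (τ v) := S.fr_symm _ _ h.1
            have g2 : S.F n τ W x y p q (ltr (f u)) u ∧ a (ltr (f u)) u = vl (f u) := by
              rcases hu2 with h | h
              · exact h.2
              · exact absurd f2 h.1
            have g3 : S.F n τ W x y p q (ltr (f v)) v ∧ a (ltr (f v)) v = vl (f v) := by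
              rcases hv2 with h | h
              · exact h.2
              · exact absurd f3 h.1
            rw [hl1] at g2
            have := (ha (ltr (f v))).2.2.1 u v huv hv g2.1 g3.1
              ⟨huv.ne, by rw [cc_lt c huv, hl2], by
                rw [cc_lt c huv, max_eq_right huv.le, min_eq_left huv.le]; exact he⟩
            rw [g2.2, g3.2] at this
            exact this hs
          · obtain ⟨h1, h2, h3⟩ := h
            have g2 : S.nu W (τ u) = vl (f u) := by
              rcases hu2 with h | h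
              · exact absurd (S.fr_symm _ _ h.1) h2
              · exact h.2
            have g3 : S.nu W (τ v) = vl (f v) := by
              rcases hv2 with h | h
              · exact absurd (S.fr_symm _ _ h.1) h1
              · exact h.2
            rw [S.nu_symm (τ v), S.nu_symm (τ u), g2, g3] at h3
            exact h3 (s2 hs)
      · -- `v` is a host, `u` is not
        by_cases f2 : S.fr W (τ u)
        · have g2 : S.F n τ W x y p q (ltr (f u)) u ∧ a (ltr (f u)) u = vl (f u) := by
            rcases hu2 with h | h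
            · exact h.2
            · exact absurd f2 h.1
          have := hun v u hv hu huv.ne' hv1 hv2 g2.1 g2.2 hl1.symm
            (by rw [cc_comm, cc_lt c huv, ← hl2, ← hl1])
          rw [cc_comm, cc_lt c huv] at this
          exact this hs
        · have g2 : S.nu W (τ u) = vl (f u) := by
            rcases hu2 with h | h
            · exact absurd h.1 f2
            · exact h.2
          rcases hpr with hd | he
          · rcases S.X2 _ _ _ (τ u) hv2 (by rw [hu1, hl1]) (by rw [hd.1, hl2]) with h | h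
            · exact f2 h.1
            · obtain ⟨_, h2, h3⟩ := h
              have g1 := hd.2.resolve_left h2
              rw [g1, g2] at h3
              have s3 : ∀ {a b d : Fin 3}, a + b + d = 1 → a + d + b = 1 := by decide
              exact h3 (s3 hs)
          · have := S.X4 _ _ _ _ _ hv2 he hl2 (by rw [hu1, hl1]) f2
            rw [g2] at this
            exact this (s1 hs)
    · rcases hst v hv with ⟨hv1, hv2⟩ | ⟨hv1, hv2⟩
      · -- `u` is a host, `v` is not
        by_cases f3 : S.fr W (τ v)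
        · have g3 : S.F n τ W x y p q (ltr (f v)) v ∧ a (ltr (f v)) v = vl (f v) := by
            rcases hv2 with h | h
            · exact h.2
            · exact absurd f3 h.1
          have := hun u v hu hv huv.ne hu1 hu2 g3.1 g3.2 hl1 (by rw [cc_lt c huv, hl2])
          rw [cc_lt c huv] at this
          exact this (s2 hs)
        · have g3 : S.nu W (τ v) = vl (f v) := by
            rcases hv2 with h | h
            · exact absurd h.1 f3
            · exact h.2
          rcases hpr with hd | he
          · rcases S.X2 _ _ _ (τ v) hu2 (by rw [hv1, hl1]) (by rw [S.lt_symm, hd.1, hl1, hl2]) with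
              h | h
            · exact f3 h.1
            · obtain ⟨_, h2, h3⟩ := h
              have g1 := hd.2.resolve_left (fun h => h2 (S.fr_symm _ _ h))
              rw [S.nu_symm (τ u), g1, g3] at h3
              exact h3 (s1 hs)
          · have := S.X3 _ _ _ _ _ hu2 he (by rw [hl1, hl2]) (by rw [hv1, hl1]) f3
            rw [g3] at this
            have s3 : ∀ {a b d : Fin 3}, a + b + d = 1 → a + d + b = 1 := by decide
            exact this (s3 hs)
      · -- two hosts
        have hbad : Bad (f u) (f v) (c u v) := (bad_iff _ _ _).mpr ⟨hl1, hl2, hs⟩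
        rcases hu1 with e1 | e1 <;> rcases hv1 with e2 | e2
        · omega
        · subst e1; subst e2
          rw [hfx, hfy] at hbad
          exact hb hu hv hbad
        · subst e1; subst e2
          rw [hfx, hfy, hG.symm u v hu hv hxy.symm] at hbad
          exact hb hv hu hbad.swap12
        · omega
  have hT : ∀ u v, u < n → v < n → u ≠ v → ¬ Bad (f u) (f v) (c u v) := by
    intro u v hu hv huv hbad
    rcases lt_or_gt_of_ne huv with h | h
    · exact hT0 u v h hv hbad
    · rw [hG.symm u v hu hv huv] at hbad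
      exact hT0 v u h hu hbad.swap12
  have hold : ∀ i j, i < n → j < n → (addV n W f (τ, c)).2 i j = c i j :=
    fun i j hi hj => addV_old hi hj
  have hn1 : ∀ j, (addV n W f (τ, c)).2 n j = f j := by
    intro j; simp [addV]
  have hn2 : ∀ j, j < n → (addV n W f (τ, c)).2 j n = f j := by
    intro j hj; simp only [addV]; rw [if_neg (by omega), if_pos trivial]
  have ht : ∀ j, j < n → (addV n W f (τ, c)).1 j = τ j := by
    intro j hj; simp only [addV]; rw [Function.update_of_ne (by omega)]
  have htn : (addV n W f (τ, c)).1 n = W := by simp [addV]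
  refine ⟨f, hfx, hfy, ?_, ?_, ?_, ?_⟩
  · intro i j hi hj hij
    rcases Nat.lt_succ_iff_lt_or_eq.mp hi with h1 | h1 <;>
      rcases Nat.lt_succ_iff_lt_or_eq.mp hj with h2 | h2
    · rw [hold i j h1 h2, hold j i h2 h1]; exact hG.symm i j h1 h2 hij
    · subst h2; rw [hn1, hn2 i h1]
    · subst h1; rw [hn1, hn2 j h2]
    · omega
  · intro i j k hi hj hk hij hjk hik
    rcases Nat.lt_succ_iff_lt_or_eq.mp hi with h1 | h1
    · rcases Nat.lt_succ_iff_lt_or_eq.mp hj with h2 | h2
      · rcases Nat.lt_succ_iff_lt_or_eq.mp hk with h3 | h3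
        · rw [hold i j h1 h2, hold j k h2 h3, hold i k h1 h3]
          exact hG.tri i j k h1 h2 h3 hij hjk hik
        · subst h3
          rw [hold i j h1 h2, hn2 j h2, hn2 i h1]
          exact fun h => hT i j h1 h2 hij h.rot.swap12
      · subst h2
        have h3 : k < j := by omega
        rw [hn2 i h1, hn1, hold i k h1 h3]
        exact hT i k h1 h3 hik
    · subst h1
      have h2 : j < i := by omega
      have h3 : k < i := by omega
      rw [hn1, hn1, hold j k h2 h3]
      exact fun h => hT j k h2 h3 hjk h.swap23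
  · intro i j hij hj
    rcases Nat.lt_succ_iff_lt_or_eq.mp hj with h2 | h2
    · rw [ht j h2, ht i (by omega), hold i j (by omega) h2]
      exact hG.pair i j hij h2
    · subst h2
      rw [htn, ht i hij, hn2 i hij]
      rcases hst i hij with h | h
      · left
        refine ⟨h.1, ?_⟩
        rcases h.2 with h | h
        · exact Or.inl h.1
        · exact Or.inr h.2
      · exact Or.inr h.2
  · intro i i' j hij hi'j hj hne
    rcases Nat.lt_succ_iff_lt_or_eq.mp hj with h2 | h2
    · rw [ht j h2, ht i (by omega), ht i' (by omega), hold i j (by omega) h2,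
        hold i' j (by omega) h2]
      exact hG.two i i' j hij hi'j h2 hne
    · subst h2
      rw [htn, ht i hij, ht i' hi'j, hn2 i hij, hn2 i' hi'j]
      intro he he' hl
      have key : ∀ z, z < j → S.ex W (τ z) (f z) → z = x ∨ z = y := by
        intro z hz hex
        rcases hst z hz with h | h
        · refine absurd ⟨h.1, ?_⟩ (S.X0 _ _ _ hex)
          rcases h.2 with h | h
          · exact Or.inl h.1
          · exact Or.inr h.2
        · exact h.1
      rcases key i hij he with e1 | e1 <;> rcases key i' hi'j he' with e2 | e2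
      · omega
      · subst e1; subst e2
        rw [hfx] at he hl ⊢
        rw [hfy] at he' hl
        exact (hD hij hi'j hl he he').2
      · subst e1; subst e2
        rw [hfy] at he hl ⊢
        rw [hfx] at he' hl
        intro v hv hv2 hv3
        exact (hD hi'j hij hl.symm he' he).2 v hv (by rw [hv2, hl]) ⟨by rw [hv3.2, hl],
          by rw [hv3.1, hl]⟩
      · omega

variable (S)

theorem good_zero (τ : ℕ → T) (c : ℕ → ℕ → Fin 6) : S.Good 0 τ c where
  symm := fun i j hi => absurd hi (Nat.not_lt_zero i)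
  tri := fun i j k hi => absurd hi (Nat.not_lt_zero i)
  pair := fun i j _ hj => absurd hj (Nat.not_lt_zero j)
  two := fun i i' j _ _ hj => absurd hj (Nat.not_lt_zero j)

/-- the colouring of the complete graph on `ℕ`. -/
theorem exists_colouring [Nonempty T] (h : S.Served) :
    ∃ c : ℕ → ℕ → Fin 6, (∀ x y, x ≠ y → c x y = c y x) ∧
      (∀ x y z, x ≠ y → y ≠ z → x ≠ z → ¬ Bad (c x y) (c y z) (c x z)) ∧
      (∀ x y, x ≠ y → ∀ t u, ¬ Bad (c x y) t u →
        ∃ w, w ≠ x ∧ w ≠ y ∧ c x w = t ∧ c w y = u) := by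
  classical
  refine gframe (P := fun n τ c => S.Good n τ c)
    (fun _ => Classical.arbitrary T, fun _ _ => 0) (S.good_zero _ _)
    (fun n s hG => hG.symm) (fun n s hG => hG.tri) ?_ ?_
  · intro n s hG
    obtain ⟨f, _, _, hf⟩ := extend (τ := s.1) (c := s.2) hG (Classical.arbitrary T) n (n + 1) 0 0
      (by omega) (fun h => absurd h (lt_irrefl n)) (fun h => absurd h (by omega))
      (fun h => absurd h (lt_irrefl n)) (fun h => absurd h (lt_irrefl n))
    exact ⟨_, f, hf⟩
  · intro n s hG x y t u hx hy hxy hbad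
    right
    have he : S.Def (s.1 x) (s.1 y) (s.2 x y) ∨ S.ex (s.1 x) (s.1 y) (s.2 x y) ∨
        S.ex (s.1 y) (s.1 x) (s.2 x y) := by
      rcases lt_or_gt_of_ne hxy with h1 | h1
      · rcases hG.pair x y h1 hy with h2 | h2
        · left
          refine ⟨by rw [S.lt_symm]; exact h2.1, ?_⟩
          rcases h2.2 with h3 | h3
          · exact Or.inl (S.fr_symm _ _ h3)
          · right; rw [S.nu_symm]; exact h3
        · exact Or.inr (Or.inr h2)
      · have h2 := hG.pair y x h1 hx
        rw [hG.symm y x hy hx hxy.symm] at h2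
        rcases h2 with h2 | h2
        · exact Or.inl h2
        · exact Or.inr (Or.inl h2)
    obtain ⟨W, hp, hq, hD⟩ := h _ _ _ t u he hbad
    obtain ⟨f, hfx, hfy, hf⟩ := extend (τ := s.1) (c := s.2) hG W x y t u hxy (fun _ => hp)
      (fun _ => hq) (fun _ _ hb => hbad hb.rot.rot) (fun _ _ => hD)
    exact ⟨W, f, hfx, hfy, hf⟩

end Sys

open Pool.Agent.RA6 in
/-- A system of tables which passes the local conditions gives a representation. -/
theorem rep_of_sys {T : Type} [Nonempty T] (S : Sys T) (h : S.Served) :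
    ∃ r : Set Atom → Set (ℕ × ℕ), IsRepresentation ℕ r := by
  obtain ⟨c, hc⟩ := S.exists_colouring h
  exact rep_of_colouring (isColouring_of hc)

end Pool.Agent.Helper25.FP
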