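import Pool.Agent.Helper25.RA.Frame

/-!
The general one point extension frame: any class `P` of finite labelled colourings in which every
demand is already witnessed or is served by a one point extension inside the class gives a
colouring of the complete graph on `ℕ`.
-/

namespace Pool.Agent.Helper25.RA

section gframe

variable {L : Type} (P : ℕ → (ℕ → L) → (ℕ → ℕ → Fin 6) → Prop)

/-- the demand `(x, y; t, u)` at step `n` can be served by the new vertex. -/
def GVal (n x y : ℕ) (t u : Fin 6) (S : (ℕ → L) × (ℕ → ℕ → Fin 6)) : Prop :=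
  x < n ∧ y < n ∧ x ≠ y ∧ ∃ l f, f x = t ∧ f y = u ∧
    P (n + 1) (addV n l f S).1 (addV n l f S).2

/-- some extension exists. -/
def GExt (n : ℕ) (S : (ℕ → L) × (ℕ → ℕ → Fin 6)) : Prop :=
  ∃ l f, P (n + 1) (addV n l f S).1 (addV n l f S).2

open Classical in
/-- one step -/
noncomputable def gstep (n : ℕ) (x y : ℕ) (t u : Fin 6) (S : (ℕ → L) × (ℕ → ℕ → Fin 6)) :
    (ℕ → L) × (ℕ → ℕ → Fin 6) :=
  if h : GVal P n x y t u S then addV n h.2.2.2.choose h.2.2.2.choose_spec.choose S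
  else if h : GExt P n S then addV n h.choose h.choose_spec.choose S
  else S

/-- the state before vertex `n` is added, from the start `S0` -/
noncomputable def gst (S0 : (ℕ → L) × (ℕ → ℕ → Fin 6)) : ℕ → (ℕ → L) × (ℕ → ℕ → Fin 6)
  | 0 => S0
  | n + 1 => gstep P n (dem n).1 (dem n).2.1 (dem n).2.2.1 (dem n).2.2.2 (gst S0 n)

variable {P}

theorem addV_old {n : ℕ} {l : L} {f : ℕ → Fin 6} {S : (ℕ → L) × (ℕ → ℕ → Fin 6)} {a b : ℕ}
    (ha : a < n) (hb : b < n) : (addV n l f S).2 a b = S.2 a b := by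
  simp only [addV]
  rw [if_neg (by omega), if_neg (by omega)]

theorem gstep_old {n x y : ℕ} {t u : Fin 6} {S : (ℕ → L) × (ℕ → ℕ → Fin 6)} {a b : ℕ}
    (ha : a < n) (hb : b < n) : (gstep P n x y t u S).2 a b = S.2 a b := by
  unfold gstep
  split
  · exact addV_old ha hb
  · split
    · exact addV_old ha hb
    · rfl

theorem gst_mono (S0 : (ℕ → L) × (ℕ → ℕ → Fin 6)) (a b n : ℕ) (ha : a < n) (hb : b < n) (m : ℕ) :
    (gst P S0 (n + m)).2 a b = (gst P S0 n).2 a b := by
  induction m with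
  | zero => rfl
  | succ m ih =>
    rw [← ih]
    have h1 : a < n + m := by omega
    have h2 : b < n + m := by omega
    exact gstep_old h1 h2

theorem gst_mono' (S0 : (ℕ → L) × (ℕ → ℕ → Fin 6)) (a b n n' : ℕ) (ha : a < n) (hb : b < n)
    (h : n ≤ n') : (gst P S0 n').2 a b = (gst P S0 n).2 a b := by
  obtain ⟨m, rfl⟩ := Nat.exists_eq_add_of_le h
  exact gst_mono S0 a b n ha hb m

theorem gst_P (S0 : (ℕ → L) × (ℕ → ℕ → Fin 6)) (h0 : P 0 S0.1 S0.2)
    (hext : ∀ (n : ℕ) (S : (ℕ → L) × (ℕ → ℕ → Fin 6)), P n S.1 S.2 → GExt P n S) (n : ℕ) :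
    P n (gst P S0 n).1 (gst P S0 n).2 := by
  induction n with
  | zero => exact h0
  | succ n ih =>
    show P (n + 1) (gstep P n _ _ _ _ _).1 (gstep P n _ _ _ _ _).2
    unfold gstep
    split
    · rename_i h
      exact h.2.2.2.choose_spec.choose_spec.2.2
    · split
      · rename_i h
        exact h.choose_spec.choose_spec
      · rename_i h
        exact absurd (hext n _ ih) h

/-- The general frame. -/
theorem gframe (S0 : (ℕ → L) × (ℕ → ℕ → Fin 6)) (h0 : P 0 S0.1 S0.2)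
    (hsymm : ∀ (n : ℕ) (S : (ℕ → L) × (ℕ → ℕ → Fin 6)), P n S.1 S.2 → ∀ i j, i < n → j < n → i ≠ j → S.2 i j = S.2 j i)
    (htri : ∀ (n : ℕ) (S : (ℕ → L) × (ℕ → ℕ → Fin 6)), P n S.1 S.2 → ∀ i j k, i < n → j < n → k < n → i ≠ j → j ≠ k → i ≠ k →
      ¬ Bad (S.2 i j) (S.2 j k) (S.2 i k))
    (hext : ∀ (n : ℕ) (S : (ℕ → L) × (ℕ → ℕ → Fin 6)), P n S.1 S.2 → ∃ l f, P (n + 1) (addV n l f S).1 (addV n l f S).2)
    (hserve : ∀ (n : ℕ) (S : (ℕ → L) × (ℕ → ℕ → Fin 6)), P n S.1 S.2 → ∀ x y t u, x < n → y < n → x ≠ y → ¬ Bad (S.2 x y) t u →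
      (∃ w, w < n ∧ w ≠ x ∧ w ≠ y ∧ S.2 x w = t ∧ S.2 w y = u) ∨
      ∃ l f, f x = t ∧ f y = u ∧ P (n + 1) (addV n l f S).1 (addV n l f S).2) :
    ∃ c : ℕ → ℕ → Fin 6, (∀ x y, x ≠ y → c x y = c y x) ∧
      (∀ x y z, x ≠ y → y ≠ z → x ≠ z → ¬ Bad (c x y) (c y z) (c x z)) ∧
      (∀ x y, x ≠ y → ∀ t u, ¬ Bad (c x y) t u → ∃ w, w ≠ x ∧ w ≠ y ∧ c x w = t ∧ c w y = u) := by
  classical
  have hP := gst_P S0 h0 hext
  let c : ℕ → ℕ → Fin 6 := fun a b => (gst P S0 (max a b + 1)).2 a b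
  have hc : ∀ a b n, a < n → b < n → c a b = (gst P S0 n).2 a b := by
    intro a b n ha hb
    exact (gst_mono' S0 a b _ _ (by omega) (by omega) (by omega)).symm
  refine ⟨c, ?_, ?_, ?_⟩
  · intro x y hxy
    rw [hc x y (x + y + 1) (by omega) (by omega), hc y x (x + y + 1) (by omega) (by omega)]
    exact hsymm _ _ (hP _) x y (by omega) (by omega) hxy
  · intro x y z h1 h2 h3
    rw [hc x y (x + y + z + 1) (by omega) (by omega),
      hc y z (x + y + z + 1) (by omega) (by omega),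
      hc x z (x + y + z + 1) (by omega) (by omega)]
    exact htri _ _ (hP _) x y z (by omega) (by omega) (by omega) h1 h2 h3
  · intro x y hxy t u htu
    obtain ⟨n, hn, hd⟩ := dem_surj (x, y, t, u) (x + y + 1)
    have hx : x < n := by omega
    have hy : y < n := by omega
    have hcxy : c x y = (gst P S0 n).2 x y := hc x y n hx hy
    rcases hserve n _ (hP n) x y t u hx hy hxy (by rw [← hcxy]; exact htu) with hw | hex
    · obtain ⟨w, hwn, hwx, hwy, h1, h2⟩ := hw
      exact ⟨w, hwx, hwy, by rw [hc x w n hx hwn]; exact h1, by rw [hc w y n hwn hy]; exact h2⟩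
    · have hv : GVal P n x y t u (gst P S0 n) := ⟨hx, hy, hxy, hex⟩
      have hst : gst P S0 (n + 1) = addV n hv.2.2.2.choose hv.2.2.2.choose_spec.choose
          (gst P S0 n) := by
        show gstep P n _ _ _ _ (gst P S0 n) = _
        rw [hd]
        show gstep P n x y t u (gst P S0 n) = _
        unfold gstep
        rw [dif_pos hv]
      have hf := hv.2.2.2.choose_spec.choose_spec
      refine ⟨n, by omega, by omega, ?_, ?_⟩
      · rw [hc x n (n + 1) (by omega) (by omega), hst]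
        simp only [addV]
        rw [if_neg (by omega), if_pos trivial]
        exact hf.1
      · rw [hc n y (n + 1) (by omega) (by omega), hst]
        simp only [addV]
        rw [if_pos trivial]
        exact hf.2.1

end gframe

end Pool.Agent.Helper25.RA
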